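import Mathlib
import Pool.Agent.Q17.IG.Cyc
import Pool.Agent.Q17.TP.Iso

/-!
# Curves with a rational cyclic subgroup of order 4: the rank over the abelian fields of 2-power degree

Let `L` be a number field of degree `2 ^ n` which can be embedded into a cyclotomic field (by the
theorem of Kronecker and Weber: `L` is a Galois extension of `ℚ` with abelian Galois group of order
`2 ^ n`). All elliptic curves `E` over `ℚ` with a rational cyclic subgroup of order 4 are ordered by
height. The average of `4 ^ (rank E(L) / [L : ℚ])` over these curves is bounded, so is the average of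
`rank E(L)`, and the proportion of the curves with `rank E(L) ≥ r` is at most `C 4 ^ (- r / [L : ℚ])`.
The condition `Cyclic4 A B` is defined in `Pool.Agent.Q17.IG.Cyc`: there is a point `P` of order 4 of
`y² = x³ + A x + B` over the algebraic closure of `ℚ` such that `σ P = P` or `σ P = -P` for all
automorphisms `σ`.
-/

set_option autoImplicit false

namespace Pool.Agent.Results.MP_7cad78_nt.CyclicFourAbelianFields

open Finset Filter WeierstrassCurve

open Pool.Agent.Q17.IG (Cyclic4)

/-- the curve `y² = x³ + A x + B` over a field `K`, `c = (A, B)` -/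
def E (K : Type) [Field K] (c : ℤ × ℤ) : WeierstrassCurve K := ⟨0, 0, 0, (c.1 : K), (c.2 : K)⟩

open Classical in
/-- The pairs `(A, B)` of integers such that `4 A³ + 27 B² ≠ 0`, there is no prime `p` with
`p⁴ ∣ A` and `p⁶ ∣ B`, the height `max (4 |A|³) (27 B²)` is at most `H`, and `y² = x³ + A x + B` has a
rational cyclic subgroup of order 4. (The bounds `|A|, |B| ≤ H` follow from the bound of the height.
Every elliptic curve over `ℚ` is isomorphic to `E ℚ` of exactly one pair with the first two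
properties.) -/
noncomputable def Fam (H : ℕ) : Finset (ℤ × ℤ) :=
  ((Icc (-(H : ℤ)) H) ×ˢ (Icc (-(H : ℤ)) H)).filter (fun c : ℤ × ℤ =>
    4 * c.1 ^ 3 + 27 * c.2 ^ 2 ≠ 0 ∧ 4 * |c.1| ^ 3 ≤ H ∧ 27 * c.2 ^ 2 ≤ H ∧
    (∀ p : ℕ, p.Prime → ¬ ((p : ℤ) ^ 4 ∣ c.1 ∧ (p : ℤ) ^ 6 ∣ c.2)) ∧ Cyclic4 c.1 c.2)

open Classical in
/-- the rank of the group of the points over `L` -/
noncomputable def rank (L : Type) [Field L] (c : ℤ × ℤ) : ℕ :=
  Module.finrank ℤ (E L c).toAffine.Point

/-! ### Proofs -/

lemma Fam_eq (H : ℕ) : Fam H = Pool.Agent.Q8.FI.F4 H := by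
  classical
  unfold Fam Pool.Agent.Q8.FI.F4
  apply filter_congr
  intro c _
  refine and_congr_right fun h1 => and_congr_right fun _ => and_congr_right fun _ =>
    and_congr_right fun _ => ?_
  rw [Pool.Agent.Q17.IG.cyclic4_iff h1]
  constructor
  · rintro ⟨e, q, h2, h3⟩
    refine ⟨e, q, ?_, ?_⟩
    · have h2' : c.1 = q ^ 2 - 3 * e ^ 2 := h2
      have h3' : c.2 = 2 * e ^ 3 - q ^ 2 * e := h3
      rw [h2', h3']
      ring
    · have h2' : c.1 = q ^ 2 - 3 * e ^ 2 := h2
      rw [h2']
      ring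
  · rintro ⟨t, s, h2, h3⟩
    refine ⟨t, s, ?_, ?_⟩
    · change c.1 = s ^ 2 - 3 * t ^ 2
      linear_combination h3
    · change c.2 = 2 * t ^ 3 - s ^ 2 * t
      linear_combination h2 - t * h3

lemma bc_eq (L : Type) [Field L] [NumberField L] (c : ℤ × ℤ) :
    (Pool.Agent.W307.RT.Sh c.1 c.2).baseChange L = E L c := by
  unfold Pool.Agent.W307.RT.Sh E WeierstrassCurve.baseChange WeierstrassCurve.map
  simp

open Classical in
lemma rank_eq (L : Type) [Field L] [NumberField L] (c : ℤ × ℤ) : rank L c =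
    Module.finrank ℤ ((Pool.Agent.W307.RT.Sh c.1 c.2).baseChange L).toAffine.Point := by
  rw [bc_eq]
  rfl

lemma card_tendsto : Tendsto (fun H : ℕ => (Fam H).card) atTop atTop := by
  obtain ⟨c, C, hc, h⟩ := Pool.Agent.Q8.FI.order
  have h1 : Tendsto (fun H : ℕ => c * (H : ℝ) ^ ((1 : ℝ) / 3)) atTop atTop :=
    Tendsto.const_mul_atTop hc ((tendsto_rpow_atTop (by norm_num)).comp tendsto_natCast_atTop_atTop)
  have h2 : Tendsto (fun H : ℕ => ((Fam H).card : ℝ)) atTop atTop := by
    refine tendsto_atTop_mono' _ (h.mono fun H hH => ?_) h1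
    change _ ≤ ((Fam H).card : ℝ)
    rw [Fam_eq]
    exact hH.1
  exact tendsto_natCast_atTop_iff.1 h2

open Classical in
/-- **Theorem.** The number of the elliptic curves over `ℚ` with a rational cyclic subgroup of order 4
and height at most `H` tends to infinity with `H`. Let `L` be a number field of degree `2 ^ n` with an
embedding into a cyclotomic field `F = ℚ(ζ_N)`. There is a constant `C` such that for all `H`: the sum
of `4 ^ (rank E(L) / 2 ^ n)` over the curves of height at most `H` is at most `C` times their number,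
the sum of `rank E(L)` is at most `2 ^ n C` times their number, and for all `r` the number of the
curves with `rank E(L) ≥ r` is at most `C 4 ^ (- r / 2 ^ n)` times the number of the curves. -/
theorem result : Tendsto (fun H : ℕ => (Fam H).card) atTop atTop ∧
    ∀ (L : Type) [Field L] [NumberField L] (n : ℕ), Module.finrank ℚ L = 2 ^ n →
    ∀ (N : ℕ) [NeZero N] (F : Type) [Field F] [NumberField F] [IsCyclotomicExtension {N} ℚ F],
    Nonempty (L →ₐ[ℚ] F) → ∃ C : ℝ, ∀ H : ℕ,
      ∑ c ∈ Fam H, (4 : ℝ) ^ ((rank L c : ℝ) / 2 ^ n) ≤ C * (Fam H).card ∧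
      ∑ c ∈ Fam H, (rank L c : ℝ) ≤ 2 ^ n * C * (Fam H).card ∧
      ∀ r : ℕ, (((Fam H).filter (fun c => r ≤ rank L c)).card : ℝ) ≤
        C * 4 ^ (-((r : ℝ) / 2 ^ n)) * (Fam H).card := by
  refine ⟨card_tendsto, ?_⟩
  intro L _ _ n hn N _ F _ _ _ ⟨f⟩
  obtain ⟨C, hC⟩ := Pool.Agent.Q17.TP.avgL4 N f hn
  have h1 : ∀ H : ℕ, ∑ c ∈ Fam H, (4 : ℝ) ^ ((rank L c : ℝ) / 2 ^ n) ≤ C * (Fam H).card := by
    intro H
    have := hC H
    rw [Fam_eq]
    simp only [rank_eq]
    exact this
  refine ⟨C, fun H => ⟨h1 H, ?_, fun r => ?_⟩⟩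
  · calc ∑ c ∈ Fam H, (rank L c : ℝ) ≤ ∑ c ∈ Fam H, 2 ^ n * (4 : ℝ) ^ ((rank L c : ℝ) / 2 ^ n) := by
          refine sum_le_sum fun c _ => ?_
          obtain ⟨x, hx⟩ : ∃ x : ℝ, x = (rank L c : ℝ) / 2 ^ n := ⟨_, rfl⟩
          have hx0 : 0 ≤ x := by rw [hx]; positivity
          have h2 : x + 1 ≤ Real.exp x := Real.add_one_le_exp x
          have h3 : Real.exp x ≤ (4 : ℝ) ^ x := by
            rw [Real.rpow_def_of_pos (by norm_num)]
            apply Real.exp_le_exp.2
            have h4 : 1 ≤ Real.log 4 := by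
              rw [Real.le_log_iff_exp_le (by norm_num)]
              have := Real.exp_one_lt_d9
              linarith
            nlinarith
          rw [← hx]
          have h5 : (rank L c : ℝ) = 2 ^ n * x := by
            rw [hx]
            field_simp
          rw [h5]
          apply mul_le_mul_of_nonneg_left _ (by positivity)
          linarith
      _ = 2 ^ n * ∑ c ∈ Fam H, (4 : ℝ) ^ ((rank L c : ℝ) / 2 ^ n) := by rw [mul_sum]
      _ ≤ 2 ^ n * (C * (Fam H).card) := mul_le_mul_of_nonneg_left (h1 H) (by positivity)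
      _ = _ := by ring
  · have h2 : (((Fam H).filter (fun c => r ≤ rank L c)).card : ℝ) * (4 : ℝ) ^ ((r : ℝ) / 2 ^ n) ≤
        ∑ c ∈ Fam H, (4 : ℝ) ^ ((rank L c : ℝ) / 2 ^ n) := by
      calc (((Fam H).filter (fun c => r ≤ rank L c)).card : ℝ) * (4 : ℝ) ^ ((r : ℝ) / 2 ^ n)
          = ∑ _c ∈ (Fam H).filter (fun c => r ≤ rank L c), (4 : ℝ) ^ ((r : ℝ) / 2 ^ n) := by
            rw [sum_const, nsmul_eq_mul]
        _ ≤ ∑ c ∈ (Fam H).filter (fun c => r ≤ rank L c), (4 : ℝ) ^ ((rank L c : ℝ) / 2 ^ n) := by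
            refine sum_le_sum fun c hc => ?_
            apply Real.rpow_le_rpow_of_exponent_le (by norm_num)
            have : (r : ℝ) ≤ rank L c := by exact_mod_cast (mem_filter.1 hc).2
            gcongr
        _ ≤ _ := sum_le_sum_of_subset_of_nonneg (filter_subset _ _) fun c _ _ => by positivity
    have h3 := h2.trans (h1 H)
    have h4 : (0 : ℝ) < (4 : ℝ) ^ ((r : ℝ) / 2 ^ n) := by positivity
    rw [Real.rpow_neg (by norm_num)]
    calc (((Fam H).filter (fun c => r ≤ rank L c)).card : ℝ) ≤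
          C * (Fam H).card / (4 : ℝ) ^ ((r : ℝ) / 2 ^ n) := by
          rw [le_div_iff₀ h4]
          exact h3
      _ = _ := by
          field_simp

end Pool.Agent.Results.MP_7cad78_nt.CyclicFourAbelianFields
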