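import Mathlib
import Pool.Agent.Q17.QF.Rk
import Pool.Agent.Q17.IG.Cyc
import Pool.Agent.Q8.FI.Cnt

/-!
# The rank over `ℚ(√f)` of curves with a rational cyclic subgroup of order 4

The elliptic curves `E` over `ℚ` with a rational cyclic subgroup of order 4, ordered by height. For
every prime `f` congruent to 1 modulo 8 a positive proportion of these curves has rank at most one over
`ℚ(√f)`.
-/

set_option autoImplicit false

namespace Pool.Agent.Results.MP_7cad78_nt.CyclicFourQuadraticFields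

open Finset Filter WeierstrassCurve

open Pool.Agent.Q17.IG (Cyclic4)

/-- the curve `y² = x³ + A x + B` over a field `K`, `c = (A, B)` -/
def E (K : Type) [Field K] (c : ℤ × ℤ) : WeierstrassCurve K := ⟨0, 0, 0, (c.1 : K), (c.2 : K)⟩

open Classical in
/-- The pairs `(A, B)` of integers such that `4 A³ + 27 B² ≠ 0`, there is no prime `p` with
`p⁴ ∣ A` and `p⁶ ∣ B`, the height `max (4 |A|³) (27 B²)` is at most `H`, and `y² = x³ + A x + B` has a
rational cyclic subgroup of order 4. (The bounds `|A|, |B| ≤ H` follow from the bound of the height.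
Every elliptic curve over `ℚ` is isomorphic to `E ℚ` of exactly one pair with the first two
properties.) -/
noncomputable def Fam (H : ℕ) : Finset (ℤ × ℤ) :=
  ((Icc (-(H : ℤ)) H) ×ˢ (Icc (-(H : ℤ)) H)).filter (fun c : ℤ × ℤ =>
    4 * c.1 ^ 3 + 27 * c.2 ^ 2 ≠ 0 ∧ 4 * |c.1| ^ 3 ≤ H ∧ 27 * c.2 ^ 2 ≤ H ∧
    (∀ p : ℕ, p.Prime → ¬ ((p : ℤ) ^ 4 ∣ c.1 ∧ (p : ℤ) ^ 6 ∣ c.2)) ∧ Cyclic4 c.1 c.2)

open Classical in
/-- the rank of `y² = x³ + A x + B` over `ℚ(√f)` is at most one -/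
def RankLeOne (f : ℕ) (c : ℤ × ℤ) : Prop :=
  ∀ (K : Type) [Field K] [NumberField K] (s : K), s ^ 2 = (f : K) →
    IntermediateField.adjoin ℚ {s} = ⊤ → Module.finrank ℤ (E K c).toAffine.Point ≤ 1

/-! ### Proofs -/

lemma Fam_eq : Fam = Pool.Agent.Q17.IG.Fm := by
  classical
  funext H
  unfold Fam Pool.Agent.Q17.IG.Fm
  apply filter_congr
  intro c _
  constructor
  · rintro ⟨h1, h2, h3, h4, h5⟩
    exact ⟨h1, h2, h3, h4, (Pool.Agent.Q17.IG.cyclic4_iff h1).1 h5⟩
  · rintro ⟨h1, h2, h3, h4, h5⟩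
    exact ⟨h1, h2, h3, h4, (Pool.Agent.Q17.IG.cyclic4_iff h1).2 h5⟩

lemma bc_eq (L : Type) [Field L] [NumberField L] (c : ℤ × ℤ) :
    (Pool.Agent.W307.RT.Sh c.1 c.2).baseChange L = E L c := by
  unfold Pool.Agent.W307.RT.Sh E WeierstrassCurve.baseChange WeierstrassCurve.map
  simp

lemma card_tendsto : Tendsto (fun H : ℕ => (Fam H).card) atTop atTop := by
  obtain ⟨C4, N1, hC4, h⟩ := Pool.Agent.Q17.IG.Fm_lower
  rw [Filter.tendsto_atTop_atTop]
  intro b
  obtain ⟨n, hn⟩ := exists_nat_gt (C4 * b)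
  refine ⟨(max N1 n + 1) ^ 6, fun H hH => ?_⟩
  have h1 := h (max N1 n + 1) H (by omega) (hH.trans (Nat.le_mul_of_pos_left H (by norm_num)))
  rw [Fam_eq]
  have h2 : (n : ℝ) ≤ ((max N1 n + 1 : ℕ) : ℝ) := by
    have : n ≤ max N1 n + 1 := by omega
    exact_mod_cast this
  have h3 : (1 : ℝ) ≤ ((max N1 n + 1 : ℕ) : ℝ) := by
    have : 1 ≤ max N1 n + 1 := by omega
    exact_mod_cast this
  have h4 : C4 * b ≤ C4 * (Pool.Agent.Q17.IG.Fm H).card := by nlinarith
  exact_mod_cast le_of_mul_le_mul_left h4 hC4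

open Classical in
/-- **Theorem.** The number of the elliptic curves over `ℚ` with a rational cyclic subgroup of order 4
and height at most `H` tends to infinity with `H`. For every prime `f ≡ 1` modulo 8 a positive
proportion of these curves (the lower density is positive) has rank at most one over `ℚ(√f)`. -/
theorem result : Tendsto (fun H : ℕ => (Fam H).card) atTop atTop ∧
    ∀ f : ℕ, f.Prime → f % 8 = 1 → ∃ δ : ℝ, 0 < δ ∧ ∀ᶠ H : ℕ in atTop,
      δ * ((Fam H).card : ℝ) ≤ (((Fam H).filter (RankLeOne f)).card : ℝ) := by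
  refine ⟨card_tendsto, fun f hf h8 => ?_⟩
  obtain ⟨δ, hδ, H0, h⟩ := Pool.Agent.Q17.IG.posH4 (Pool.Agent.Q17.QF.tqr_pos hf h8)
  refine ⟨δ, hδ, ?_⟩
  filter_upwards [eventually_ge_atTop H0] with H hH
  have h1 := h H hH
  rw [← Fam_eq] at h1
  refine h1.trans ?_
  have h2 : (Fam H).filter (Pool.Agent.Q17.IG.Q4 (Pool.Agent.Y667.QK.R.TQR f)) ⊆
      (Fam H).filter (RankLeOne f) := by
    intro c hc
    rw [mem_filter] at hc ⊢
    refine ⟨hc.1, fun K _ _ s hs hgen => ?_⟩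
    rw [← bc_eq]
    exact Pool.Agent.Q17.QF.rank_one hf.ne_zero hc.2 K s hs hgen
  exact_mod_cast card_le_card h2

end Pool.Agent.Results.MP_7cad78_nt.CyclicFourQuadraticFields
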